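import Pool.Agent.W537.KT.Stm

/-!
# KT-DEC
-/

set_option autoImplicit false

namespace Pool.Agent.W249.KT

open Matrix Polynomial Pool.Agent.W537.KT

/-- multiplicities of the roots of `p` in a polynomial `p ^ k * q` -/
theorem mult_root {p q : ℚ[X]} (hp : Irreducible p) {k : ℕ} (hq : ¬ p ∣ q) {s : ℂ}
    (hs : (p.map (algebraMap ℚ ℂ)).IsRoot s) :
    ((p ^ k * q).map (algebraMap ℚ ℂ)).rootMultiplicity s = k ∧
      ¬ (q.map (algebraMap ℚ ℂ)).IsRoot s := by
  have hq0 : q ≠ 0 := by rintro rfl; exact hq (dvd_zero p)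
  have hqs : ¬ (q.map (algebraMap ℚ ℂ)).IsRoot s := by
    intro h
    have h1 : aeval s p = 0 := by
      rw [aeval_def, ← eval_map]; exact hs
    have h2 : aeval s q = 0 := by
      rw [aeval_def, ← eval_map]; exact h
    have h3 := minpoly.dvd ℚ s h1
    have h4 := minpoly.dvd ℚ s h2
    have hint : IsIntegral ℚ s := by
      refine isAlgebraic_iff_isIntegral.1 ⟨p, hp.ne_zero, h1⟩
    have h5 : Associated (minpoly ℚ s) p :=
      (minpoly.irreducible hint).associated_of_dvd hp h3
    exact hq (h5.symm.dvd.trans h4)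
  refine ⟨?_, hqs⟩
  have hpC : (p.map (algebraMap ℚ ℂ)) ≠ 0 := (Polynomial.map_ne_zero_iff
    (algebraMap ℚ ℂ).injective).2 hp.ne_zero
  have hqC : (q.map (algebraMap ℚ ℂ)) ≠ 0 := (Polynomial.map_ne_zero_iff
    (algebraMap ℚ ℂ).injective).2 hq0
  rw [Polynomial.map_mul, Polynomial.map_pow, rootMultiplicity_mul (mul_ne_zero
    (pow_ne_zero _ hpC) hqC), rootMultiplicity_eq_zero hqs, add_zero]
  have h1 : (p.map (algebraMap ℚ ℂ)).rootMultiplicity s = 1 := by
    have hsep : (p.map (algebraMap ℚ ℂ)).Separable := (separable_map _).2 hp.separable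
    refine le_antisymm (rootMultiplicity_le_one_of_separable hsep s) ?_
    exact (rootMultiplicity_pos hpC).2 hs
  induction k with
  | zero =>
    rw [pow_zero]
    exact rootMultiplicity_eq_zero (by simp [IsRoot])
  | succ k ih =>
    rw [pow_succ, rootMultiplicity_mul (mul_ne_zero (pow_ne_zero _ hpC) hpC), ih, h1]

/-- a polynomial over `ℚ` of positive degree has a complex root -/
theorem exists_root' {q : ℚ[X]} (h : q.natDegree ≠ 0) :
    ∃ s : ℂ, (q.map (algebraMap ℚ ℂ)).IsRoot s := by
  refine IsAlgClosed.exists_root _ ?_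
  rw [Polynomial.degree_map]
  intro h0
  exact h (Polynomial.natDegree_eq_zero_iff_degree_le_zero.2 h0.le)

theorem t_DEC : S_DEC := by
  intro ι _ _ Q P m hQs hQd hirr hPQ hcard
  classical
  set Qc : Matrix ι ι ℂ := Q.map (fun q : ℚ => (q : ℂ)) with hQc
  set Pc : Matrix ι ι ℂ := P.map (fun q : ℚ => (q : ℂ)) with hPc
  set p := minpoly ℚ P with hp
  set pC := p.map (algebraMap ℚ ℂ) with hpC
  have hfun : (fun q : ℚ => (q : ℂ)) = (algebraMap ℚ ℂ : ℚ → ℂ) := by
    funext q; simp
  have hsep : pC.Separable := (separable_map _).2 hirr.separable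
  have hQcs : Qc.transpose = Qc := by
    rw [hQc, ← Matrix.transpose_map, hQs]
  have hQcd : Qc.det ≠ 0 := by
    have : Qc.det = ((Q.det : ℚ) : ℂ) := by
      rw [hQc, hfun]
      have := (RingHom.map_det (algebraMap ℚ ℂ) Q).symm
      simpa using this
    rw [this]
    exact_mod_cast hQd
  have hPQc : Pc.transpose * Qc = Qc * Pc := by
    have h1 := congrArg (fun M : Matrix ι ι ℚ => M.map (fun q : ℚ => (q : ℂ))) hPQ
    simp only [hfun] at h1
    rw [Matrix.map_mul, Matrix.map_mul] at h1
    rw [hPc, hQc, hfun, ← Matrix.transpose_map]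
    exact h1
  set f : Module.End ℂ (ι → ℂ) := Matrix.toLin' Pc with hf
  have haeval : aeval f pC = 0 := by
    have h1 : aeval Pc pC = 0 := by
      have h2 : aeval P p = 0 := minpoly.aeval ℚ P
      have h3 : (aeval Pc) pC = ((algebraMap ℚ ℂ).mapMatrix (aeval P p)) := by
        rw [hpC, aeval_map_algebraMap]
        have h4 : Pc = (Algebra.ofId ℚ ℂ).mapMatrix P := by
          rw [hPc, hfun]; rfl
        rw [h4, aeval_algHom_apply]
        rfl
      rw [h3, h2, map_zero]
    have h5 : f = (Matrix.toLinAlgEquiv' (R := ℂ) (n := ι)).toAlgHom Pc := rfl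
    rw [h5, aeval_algHom_apply, h1, map_zero]
  have hss : f.IsSemisimple :=
    Module.End.isSemisimple_of_squarefree_aeval_eq_zero hsep.squarefree haeval
  have hev : ∀ s : ℂ, f.HasEigenvalue s → pC.IsRoot s := by
    intro s hs
    have h1 := Module.End.isRoot_of_hasEigenvalue hs
    exact h1.dvd (minpoly.dvd ℂ f haeval)
  have hchar : f.charpoly = (P.charpoly).map (algebraMap ℚ ℂ) := by
    rw [hf, Matrix.charpoly_toLin', hPc, hfun]
    exact Matrix.charpoly_map P (algebraMap ℚ ℂ)
  obtain ⟨k, q, hq, hkq⟩ : ∃ (k : ℕ) (q : ℚ[X]), ¬ p ∣ q ∧ P.charpoly = p ^ k * q := by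
    have hfin : FiniteMultiplicity p P.charpoly :=
      FiniteMultiplicity.of_prime_left hirr.prime (Matrix.charpoly_monic P).ne_zero
    obtain ⟨q, h1, h2⟩ := hfin.exists_eq_pow_mul_and_not_dvd
    exact ⟨_, q, h2, h1⟩
  have hq0 : q.natDegree = 0 := by
    by_contra hcon
    obtain ⟨s, hs⟩ := exists_root' hcon
    have h1 : f.charpoly.IsRoot s := by
      rw [hchar, hkq, Polynomial.map_mul]
      exact hs.dvd (dvd_mul_left _ _)
    have h2 := hev s ((Module.End.hasEigenvalue_iff_isRoot_charpoly f s).2 h1)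
    exact (mult_root hirr (k := k) hq h2).2 hs
  have hpdeg : 0 < p.natDegree := Irreducible.natDegree_pos hirr
  have hkm : k = m := by
    have h1 : P.charpoly.natDegree = Fintype.card ι := Matrix.charpoly_natDegree_eq_dim P
    have hqne : q ≠ 0 := by rintro rfl; exact hq (dvd_zero p)
    rw [hkq, natDegree_mul (pow_ne_zero _ hirr.ne_zero) hqne, natDegree_pow, hq0, add_zero,
      hcard] at h1
    exact Nat.eq_of_mul_eq_mul_right hpdeg h1
  have hdim : ∀ s : ℂ, pC.IsRoot s → Module.finrank ℂ (f.eigenspace s) = m := by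
    intro s hs
    rw [← (Module.End.isFinitelySemisimple_iff_isSemisimple.2 hss).maxGenEigenspace_eq_eigenspace,
      LinearMap.finrank_maxGenEigenspace_eq, hchar, hkq, (mult_root hirr (k := k) hq hs).1, hkm]
  have htop : ⨆ s : ℂ, f.eigenspace s = ⊤ := hss.iSup_eigenspace_eq_top
  -- the bilinear form
  set β : LinearMap.BilinForm ℂ (ι → ℂ) := Matrix.toBilin' Qc with hβ
  have hβa : ∀ u w, β u w = u ⬝ᵥ Qc *ᵥ w := fun u w => Matrix.toBilin'_apply' Qc u w
  have hβs : ∀ u w, β u w = β w u := by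
    intro u w
    rw [hβa, hβa, dotProduct_comm, ← Matrix.vecMul_transpose, hQcs, ← Matrix.dotProduct_mulVec]
  have hadj : ∀ u w, β (Pc *ᵥ u) w = β u (Pc *ᵥ w) := by
    intro u w
    rw [hβa, hβa, Matrix.mulVec_mulVec, ← hPQc, ← Matrix.mulVec_mulVec, Matrix.dotProduct_mulVec,
      Matrix.dotProduct_mulVec, Matrix.vecMul_transpose, Matrix.dotProduct_mulVec]
  have hmem : ∀ (s : ℂ) (u : ι → ℂ), u ∈ f.eigenspace s ↔ Pc *ᵥ u = s • u := by
    intro s u
    rw [Module.End.mem_eigenspace_iff, hf, Matrix.toLin'_apply]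
  have horth : ∀ s t : ℂ, s ≠ t → ∀ u ∈ f.eigenspace s, ∀ w ∈ f.eigenspace t, β u w = 0 := by
    intro s t hst u hu w hw
    rw [hmem] at hu hw
    have h1 := hadj u w
    rw [hu, hw, map_smul, LinearMap.smul_apply, map_smul, smul_eq_mul, smul_eq_mul] at h1
    have h2 : (s - t) * β u w = 0 := by rw [sub_mul, h1, sub_self]
    exact (mul_eq_zero.1 h2).resolve_left (sub_ne_zero.2 hst)
  have hnd : ∀ s : ℂ, ∀ u ∈ f.eigenspace s, (∀ w ∈ f.eigenspace s, β u w = 0) → u = 0 := by
    intro s u hu h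
    have h1 : ∀ w : ι → ℂ, β u w = 0 := by
      intro w
      have hw : w ∈ ⨆ s : ℂ, f.eigenspace s := by rw [htop]; exact Submodule.mem_top
      induction hw using Submodule.iSup_induction' with
      | mem t x hx =>
        by_cases hst : s = t
        · subst hst
          exact h x hx
        · exact horth s t hst u hu x hx
      | zero => exact map_zero _
      | add x y _ _ hx hy => rw [map_add, hx, hy, add_zero]
    have h2 := (Matrix.nondegenerate_of_det_ne_zero hQcd)
    have h3 : Qc *ᵥ u = 0 := by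
      funext i
      have h4 := h1 (Pi.single i 1)
      rw [hβs, hβa, single_dotProduct, one_mul] at h4
      exact h4
    have h5 : (Qc⁻¹ * Qc) *ᵥ u = 0 := by
      rw [← Matrix.mulVec_mulVec, h3, Matrix.mulVec_zero]
    rwa [Matrix.nonsing_inv_mul _ (isUnit_iff_ne_zero.2 hQcd), Matrix.one_mulVec] at h5
  -- orthonormal bases
  have hbas : ∀ s : ℂ, pC.IsRoot s → ∃ b : Fin m → ι → ℂ, (∀ i, b i ∈ f.eigenspace s) ∧
      ∀ i j, β (b i) (b j) = if i = j then 1 else 0 := by
    intro s hs
    obtain ⟨v, hv⟩ := LinearMap.BilinForm.exists_orthogonal_basis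
      (B := β.restrict (f.eigenspace s)) ⟨fun u w => hβs _ _⟩
    set v' := v.reindex (finCongr (hdim s hs)) with hv'
    have hv'o : ∀ i j, i ≠ j → β (v' i : ι → ℂ) (v' j) = 0 := by
      intro i j hij
      have h1 := hv (i := (finCongr (hdim s hs)).symm i) (j := (finCongr (hdim s hs)).symm j)
        (fun h => hij ((finCongr (hdim s hs)).symm.injective h))
      rw [hv', Module.Basis.reindex_apply, Module.Basis.reindex_apply]
      exact h1
    have hne : ∀ i, β (v' i : ι → ℂ) (v' i) ≠ 0 := by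
      intro i h
      have h1 : (v' i : ι → ℂ) = 0 := by
        refine hnd s _ (v' i).2 fun w hw => ?_
        have h2 := v'.sum_repr ⟨w, hw⟩
        have h3 : w = ∑ j, (v'.repr ⟨w, hw⟩ j) • (v' j : ι → ℂ) := by
          have h4 : w = ((∑ j, (v'.repr ⟨w, hw⟩ j) • v' j : f.eigenspace s) : ι → ℂ) := by
            rw [h2]
          conv_lhs => rw [h4]
          rw [Submodule.coe_sum]
          rfl
        rw [h3, map_sum]
        refine Finset.sum_eq_zero fun j _ => ?_
        rw [map_smul]
        by_cases hij : i = j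
        · subst hij
          rw [h, smul_zero]
        · rw [hv'o i j hij, smul_zero]
      exact v'.ne_zero i (Subtype.ext h1)
    have hsq : ∀ i, ∃ z : ℂ, β (v' i : ι → ℂ) (v' i) = z * z := fun i =>
      IsAlgClosed.exists_eq_mul_self _
    choose z hz using hsq
    have hz0 : ∀ i, z i ≠ 0 := by
      intro i h
      apply hne i
      rw [hz, h, mul_zero]
    refine ⟨fun i => (z i)⁻¹ • (v' i : ι → ℂ), fun i => Submodule.smul_mem _ _ (v' i).2,
      fun i j => ?_⟩
    show β ((z i)⁻¹ • (v' i : ι → ℂ)) ((z j)⁻¹ • (v' j : ι → ℂ)) = _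
    rw [map_smul, map_smul, LinearMap.smul_apply, smul_eq_mul, smul_eq_mul]
    by_cases hij : i = j
    · subst hij
      rw [if_pos rfl, hz]
      have := hz0 i
      field_simp
    · rw [if_neg hij, hv'o i j hij, mul_zero, mul_zero]
  -- the structure
  have hroot : ∀ s : {s // s ∈ pC.roots.toFinset}, pC.IsRoot s.1 := fun s =>
    isRoot_of_mem_roots (Multiset.mem_toFinset.1 s.2)
  choose b hb1 hb2 using fun s : {s // s ∈ pC.roots.toFinset} => hbas s.1 (hroot s)
  have hcardR : Fintype.card {s // s ∈ pC.roots.toFinset} = p.natDegree := by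
    rw [Fintype.card_coe, Multiset.toFinset_card_of_nodup (nodup_roots hsep),
      ← (IsAlgClosed.splits pC).natDegree_eq_card_roots, hpC, natDegree_map]
  set BB : {s // s ∈ pC.roots.toFinset} → Matrix ι (Fin m) ℂ := fun s i j => b s j i with hBB
  have hcol : ∀ s i, (fun a => BB s a i) = b s i := fun s i => rfl
  have hent : ∀ s t i j, ((BB s).transpose * Qc * BB t) i j = β (b s i) (b t j) := by
    intro s t i j
    rw [hβa, Matrix.mul_assoc, Matrix.mul_apply]
    rfl
  have ho1 : ∀ s, (BB s).transpose * Qc * BB s = 1 := by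
    intro s
    ext i j
    rw [hent, hb2, Matrix.one_apply]
  have ho2 : ∀ s t, s ≠ t → (BB s).transpose * Qc * BB t = 0 := by
    intro s t hst
    ext i j
    rw [hent, horth s.1 t.1 (fun h => hst (Subtype.ext h)) _ (hb1 s i) _ (hb1 t j)]
    rfl
  refine ⟨⟨{s // s ∈ pC.roots.toFinset}, inferInstance, inferInstance, Subtype.val,
    Subtype.val_injective, BB, ho1, ho2, ?_, ?_⟩⟩
  · set MM : Matrix ι ({s // s ∈ pC.roots.toFinset} × Fin m) ℂ := fun i q => BB q.1 i q.2 with hMM
    have h1 : (MM.transpose * Qc) * MM = 1 := by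
      ext q q'
      have h2 : ((MM.transpose * Qc) * MM) q q' =
          ((BB q.1).transpose * Qc * BB q'.1) q.2 q'.2 := by
        rw [Matrix.mul_assoc, Matrix.mul_assoc, Matrix.mul_apply, Matrix.mul_apply]
        rfl
      rw [h2]
      by_cases h3 : q.1 = q'.1
      · rw [h3, ho1, Matrix.one_apply, Matrix.one_apply]
        by_cases h4 : q.2 = q'.2
        · rw [if_pos h4, if_pos (Prod.ext h3 h4)]
        · rw [if_neg h4, if_neg (fun h => h4 (by rw [h]))]
      · rw [ho2 _ _ h3, Matrix.one_apply, if_neg (fun h => h3 (by rw [h]))]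
        rfl
    have h2 : Fintype.card ({s // s ∈ pC.roots.toFinset} × Fin m) = Fintype.card ι := by
      rw [Fintype.card_prod, hcardR, Fintype.card_fin, hcard, mul_comm]
    have h3 : MM * (MM.transpose * Qc) = 1 :=
      (Matrix.mul_eq_one_comm_of_card_eq _ _ _ h2).1 h1
    rw [← h3]
    ext i j
    rw [Matrix.sum_apply, Matrix.mul_apply, Fintype.sum_prod_type]
    refine Finset.sum_congr rfl fun s _ => ?_
    rw [Matrix.mul_apply]
    rfl
  · intro s
    ext i j
    have h1 := (hmem s.1 (b s j)).1 (hb1 s j)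
    have h2 := congrFun h1 i
    exact h2

end Pool.Agent.W249.KT
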